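import Pool.Agent.C4F.StmtsM

/-!
# Squad C4F: the rows TRT, TON, TVS, TBW, TGT, TBD (tests of the reduction)
-/

set_option autoImplicit false

namespace Pool.Agent.C4F.H75

open Pool.Agent.Helper53_CookLevin (PGen)
open Pool.Agent.Helper53_Chan (Test)

section

variable (K : Kit)

include K

theorem up {r : ℕ} {f : (Fin r → List Lt) → ℕ} (h : NumF r f) :
    NumF (r + 1) (fun ρ => f (fun i => ρ i.succ)) := K.rename r (r + 1) Fin.succ f h

theorem v0 (r : ℕ) : NumF (r + 1) (fun ρ => (ρ 0).length) := K.var (r + 1) 0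

/-- TRT. -/
theorem trt (tnm : TnmStmt) (tlk : TlkStmt) : TrtStmt := by
  have src : ∀ (r : ℕ) (e : Fin 6 → Fin r) (s t u : (Fin r → List Lt) → ℕ), NumF r s →
      NumF r t → NumF r u → Test r (fun ρ => (dat (At e ρ)).Src (s ρ) (t ρ) (u ρ)) := by
    intro r e s t u hs ht hu
    have hm : NumF r (fun ρ => 3 * (dat (At e ρ)).m) := K.mul r _ _ (K.cst r 3) (tnm r e).2.2.2.1
    have hu' := up K hu
    have hs' := up K hs
    have ht' := up K ht
    have hv := v0 K r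
    exact K.ex r (fun ρ => 3 * (dat (At e ρ)).m) (fun v ρ => (dat (At e ρ)).Lk (u ρ) v ∧
      (dat (At e ρ)).grp (u ρ) = s ρ ∧ (dat (At e ρ)).grp v = t ρ) hm
      (K.and _ _ _ (tlk (r + 1) (fun i => (e i).succ) _ _ hu' hv)
        (K.and _ _ _ (K.eq _ _ _
          ((tnm (r + 1) (fun i => (e i).succ)).2.2.2.2.2.2.2 _ hu').2.2.1 hs')
          (K.eq _ _ _ ((tnm (r + 1) (fun i => (e i).succ)).2.2.2.2.2.2.2 _ hv).2.2.1 ht')))
  intro r e s t u hs ht hu
  refine ⟨src r e s t u hs ht hu, ?_⟩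
  have hs' := up K hs
  have ht' := up K ht
  have hv := v0 K r
  exact K.mod r _ _ (K.cnt r s (fun v ρ => (dat (At e ρ)).Src ((dat (At e ρ)).grp (s ρ))
    ((dat (At e ρ)).grp (t ρ)) v) hs (src (r + 1) (fun i => (e i).succ) _ _ _
      ((tnm (r + 1) (fun i => (e i).succ)).2.2.2.2.2.2.2 _ hs').2.2.1
      ((tnm (r + 1) (fun i => (e i).succ)).2.2.2.2.2.2.2 _ ht').2.2.1 hv))
    (tnm r e).2.2.2.2.2.1

/-- TON. -/
theorem ton (tnm : TnmStmt) : TonStmt := by
  have onl : ∀ (r : ℕ) (e : Fin 6 → Fin r) (a b x y : (Fin r → List Lt) → ℕ), NumF r a →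
      NumF r b → NumF r x → NumF r y →
      Test r (fun ρ => (dat (At e ρ)).OnL (a ρ) (b ρ) (x ρ) (y ρ)) := by
    intro r e a b x y ha hb hx hy
    exact K.eq r _ _ (K.mod r _ _ hy (tnm r e).1)
      (K.mod r _ _ (K.add r _ _ (K.mul r _ _ ha hx) hb) (tnm r e).1)
  intro r e a b x y ha hb hx hy
  exact ⟨onl r e a b x y ha hb hx hy,
    onl r e a b _ _ ha hb (K.div r _ _ hx (tnm r e).1) (K.mod r _ _ hx (tnm r e).1),
    onl r e a b _ _ ha hb (K.add r _ _ (tnm r e).2.2.2.2.1 (K.div r _ _ hx (tnm r e).1))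
      (K.mod r _ _ hx (tnm r e).1)⟩

/-- TVS. -/
theorem tvs (tnm : TnmStmt) (tlk : TlkStmt) (trt : TrtStmt) (ton : TonStmt) : TvsStmt := by
  have hm : ∀ (r : ℕ) (e : Fin 6 → Fin r), NumF r (fun ρ => 3 * (dat (At e ρ)).m) :=
    fun r e => K.mul r _ _ (K.cst r 3) (tnm r e).2.2.2.1
  have vp : ∀ (r : ℕ) (e : Fin 6 → Fin r) (p v : (Fin r → List Lt) → ℕ), NumF r p →
      NumF r v → Test r (fun ρ => (dat (At e ρ)).VP (p ρ) (v ρ)) := by
    intro r e p v hp hv
    exact K.ex r (fun ρ => 3 * (dat (At e ρ)).m) (fun s ρ => (dat (At e ρ)).grp s = p ρ ∧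
      (dat (At e ρ)).vr s = v ρ) (hm r e)
      (K.and _ _ _ (K.eq _ _ _
        ((tnm (r + 1) (fun i => (e i).succ)).2.2.2.2.2.2.2 _ (v0 K r)).2.2.1 (up K hp))
        (K.eq _ _ _ ((tnm (r + 1) (fun i => (e i).succ)).2.2.2.2.2.2.2 _ (v0 K r)).1 (up K hv)))
  have vr : ∀ (r : ℕ) (e : Fin 6 → Fin r) (p v : (Fin r → List Lt) → ℕ), NumF r p →
      NumF r v → Test r (fun ρ => (dat (At e ρ)).VR (p ρ) (v ρ)) := by
    intro r e p v hp hv
    refine K.ex r (fun ρ => 3 * (dat (At e ρ)).m) (fun s ρ => ∃ t < 3 * (dat (At e ρ)).m,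
      (dat (At e ρ)).Lk s t ∧ (dat (At e ρ)).rt s t = p ρ ∧ (dat (At e ρ)).vr s = v ρ) (hm r e) ?_
    refine K.ex (r + 1) (fun ρ => 3 * (dat (At (fun i => (e i).succ) ρ)).m)
      (fun t ρ => (dat (At (fun i => (e i).succ) ρ)).Lk (ρ 0).length t ∧
      (dat (At (fun i => (e i).succ) ρ)).rt (ρ 0).length t = p (fun i => ρ i.succ) ∧
      (dat (At (fun i => (e i).succ) ρ)).vr (ρ 0).length = v (fun i => ρ i.succ))
      (hm _ _) ?_
    have h1 := up K (v0 K r)
    have h0 := v0 K (r + 1)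
    have hp' := up K (up K hp)
    have hv' := up K (up K hv)
    exact K.and _ _ _ (tlk (r + 2) (fun i => (e i).succ.succ) _ _ h1 h0)
      (K.and _ _ _ (K.eq _ _ _ (trt (r + 2) (fun i => (e i).succ.succ) _ _ _ h1 h0 h0).2 hp')
        (K.eq _ _ _ ((tnm (r + 2) (fun i => (e i).succ.succ)).2.2.2.2.2.2.2 _ h1).1 hv'))
  have vl : ∀ (r : ℕ) (e : Fin 6 → Fin r) (a b v : (Fin r → List Lt) → ℕ), NumF r a →
      NumF r b → NumF r v → Test r (fun ρ => (dat (At e ρ)).VL (a ρ) (b ρ) (v ρ)) := by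
    intro r e a b v ha hb hv
    refine K.ex r (fun ρ => 3 * (dat (At e ρ)).m) (fun s ρ => ∃ t < 3 * (dat (At e ρ)).m,
      (dat (At e ρ)).Lk s t ∧ (dat (At e ρ)).vr s = v ρ ∧
      (dat (At e ρ)).OnR (a ρ) (b ρ) ((dat (At e ρ)).rt s t) ∧
      ((dat (At e ρ)).OnP (a ρ) (b ρ) ((dat (At e ρ)).grp s) ∨
        (dat (At e ρ)).OnP (a ρ) (b ρ) ((dat (At e ρ)).grp t))) (hm r e) ?_
    refine K.ex (r + 1) (fun ρ => 3 * (dat (At (fun i => (e i).succ) ρ)).m)
      (fun t ρ => (dat (At (fun i => (e i).succ) ρ)).Lk (ρ 0).length t ∧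
      (dat (At (fun i => (e i).succ) ρ)).vr (ρ 0).length = v (fun i => ρ i.succ) ∧
      (dat (At (fun i => (e i).succ) ρ)).OnR (a (fun i => ρ i.succ)) (b (fun i => ρ i.succ))
        ((dat (At (fun i => (e i).succ) ρ)).rt (ρ 0).length t) ∧
      ((dat (At (fun i => (e i).succ) ρ)).OnP (a (fun i => ρ i.succ)) (b (fun i => ρ i.succ))
        ((dat (At (fun i => (e i).succ) ρ)).grp (ρ 0).length) ∨
      (dat (At (fun i => (e i).succ) ρ)).OnP (a (fun i => ρ i.succ)) (b (fun i => ρ i.succ))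
        ((dat (At (fun i => (e i).succ) ρ)).grp t)))
      (hm _ _) ?_
    have h1 := up K (v0 K r)
    have h0 := v0 K (r + 1)
    have ha' := up K (up K ha)
    have hb' := up K (up K hb)
    have hv' := up K (up K hv)
    have g := fun (s : (Fin (r + 2) → List Lt) → ℕ) (hs : NumF (r + 2) s) =>
      (tnm (r + 2) (fun i => (e i).succ.succ)).2.2.2.2.2.2.2 s hs
    exact K.and _ _ _ (tlk (r + 2) (fun i => (e i).succ.succ) _ _ h1 h0)
      (K.and _ _ _ (K.eq _ _ _ (g _ h1).1 hv')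
        (K.and _ _ _ (ton (r + 2) (fun i => (e i).succ.succ) _ _ _ _ ha' hb'
            (trt (r + 2) (fun i => (e i).succ.succ) _ _ _ h1 h0 h0).2 h0).2.2
          (K.or _ _ _ (ton (r + 2) (fun i => (e i).succ.succ) _ _ _ _ ha' hb' (g _ h1).2.2.1
              h0).2.1
            (ton (r + 2) (fun i => (e i).succ.succ) _ _ _ _ ha' hb' (g _ h0).2.2.1 h0).2.1)))
  have vs : ∀ (r : ℕ) (e : Fin 6 → Fin r) (i v : (Fin r → List Lt) → ℕ), NumF r i →
      NumF r v → Test r (fun ρ => (dat (At e ρ)).VS (i ρ) (v ρ)) := by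
    intro r e i v hi hv
    have g := (tnm r e).2.2.2.2.2.2.2 i hi
    have hkc := g.2.2.2.1
    have hca := g.2.2.2.2.1
    have hcb := g.2.2.2.2.2
    have hq := (tnm r e).1
    have hh := (tnm r e).2.2.2.2.1
    exact K.or r _ _ (K.and r _ _ (K.lt r _ _ hkc (K.cst r 5))
      (K.and r _ _ (K.lt r _ _ hca hh)
        (vp r e _ v (K.add r _ _ (K.mul r _ _ hca hq) hcb) hv)))
      (K.or r _ _ (K.and r _ _ (K.lt r _ _ hkc (K.cst r 5))
        (K.and r _ _ (K.le r _ _ hh hca) (K.and r _ _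
          (K.lt r _ _ hca (K.mul r _ _ (K.cst r 2) hh))
          (vr r e _ v (K.add r _ _ (K.mul r _ _ (K.sub r _ _ hca hh) hq) hcb) hv))))
      (K.and r _ _ (K.le r _ _ (K.cst r 5) hkc) (K.and r _ _ (K.lt r _ _ hkc (K.cst r 10))
        (vl r e _ _ v hca hcb hv))))
  intro r e i v hi hv
  refine ⟨vs r e i v hi hv, ?_⟩
  exact K.cnt r v (fun u ρ => (dat (At e ρ)).VS (i ρ) u) hv
    (vs (r + 1) (fun i => (e i).succ) _ _ (up K hi) (v0 K r))

/-- TBW. -/
theorem tbw (tnm : TnmStmt) : TbwStmt := by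
  intro r e x t hx ht
  have hW := (tnm r e).2.2.2.2.2.2.1
  refine Pool.Agent.Helper53_Chan.Test.congr (K.and r _ _ (K.lt r _ _ ht hW)
    (K.look r (e 5) Lt.pos _ (K.add r _ _ (K.mul r _ _ hx (K.add r _ _ hW (K.cst r 1))) ht)))
    (fun ρ => ?_)
  unfold bw
  rw [Bool.and_eq_true, decide_eq_true_iff, decide_eq_true_iff]
  rfl

/-- Equality of two bits. -/
theorem beq_test {r : ℕ} (f g : (Fin r → List Lt) → Bool) (hf : Test r (fun ρ => f ρ = true))
    (hg : Test r (fun ρ => g ρ = true)) : Test r (fun ρ => f ρ = g ρ) := by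
  refine Pool.Agent.Helper53_Chan.Test.congr (K.or r _ _ (K.and r _ _ hf hg)
    (K.and r _ _ (K.not r _ hf) (K.not r _ hg))) (fun ρ => ?_)
  cases f ρ <;> cases g ρ <;> simp

/-- TGT. -/
theorem tgt (tnm : TnmStmt) (tvs : TvsStmt) (tbw : TbwStmt) : TgtStmt := by
  intro r e i x j y hi hx hj hy
  have e1 : ∀ (r : ℕ) (f : (Fin r → List Lt) → Bool), Test r (fun ρ => f ρ = true) →
      Test r (fun ρ => f ρ = false) := by
    intro r f hf
    refine Pool.Agent.Helper53_Chan.Test.congr (K.not r _ hf) (fun ρ => ?_)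
    cases f ρ <;> simp
  refine K.ex r (fun ρ => (dat (At e ρ)).n) (fun v ρ => (dat (At e ρ)).VS (i ρ) v ∧
    (dat (At e ρ)).VS (j ρ) v ∧ bw (At e ρ) (x ρ) ((dat (At e ρ)).rk (i ρ) v) = true ∧
    bw (At e ρ) (y ρ) ((dat (At e ρ)).rk (j ρ) v) = false ∧
    ∀ u < v, (dat (At e ρ)).VS (i ρ) u → (dat (At e ρ)).VS (j ρ) u →
      bw (At e ρ) (x ρ) ((dat (At e ρ)).rk (i ρ) u) =
        bw (At e ρ) (y ρ) ((dat (At e ρ)).rk (j ρ) u)) (tnm r e).2.2.1 ?_
  have hi' := up K hi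
  have hj' := up K hj
  have hx' := up K hx
  have hy' := up K hy
  have h0 := v0 K r
  have hvi := tvs (r + 1) (fun i => (e i).succ) _ _ hi' h0
  have hvj := tvs (r + 1) (fun i => (e i).succ) _ _ hj' h0
  refine K.and _ _ _ hvi.1 (K.and _ _ _ hvj.1 (K.and _ _ _
    (tbw (r + 1) (fun i => (e i).succ) _ _ hx' hvi.2)
    (K.and _ _ _ (e1 _ _ (tbw (r + 1) (fun i => (e i).succ) _ _ hy' hvj.2)) ?_)))
  refine K.all (r + 1) (fun ρ => (ρ 0).length) (fun u ρ =>
    (dat (At (fun i => (e i).succ) ρ)).VS (i (fun i => ρ i.succ)) u →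
      (dat (At (fun i => (e i).succ) ρ)).VS (j (fun i => ρ i.succ)) u →
      bw (At (fun i => (e i).succ) ρ) (x (fun i => ρ i.succ))
        ((dat (At (fun i => (e i).succ) ρ)).rk (i (fun i => ρ i.succ)) u) =
        bw (At (fun i => (e i).succ) ρ) (y (fun i => ρ i.succ))
          ((dat (At (fun i => (e i).succ) ρ)).rk (j (fun i => ρ i.succ)) u)) h0 ?_
  have hi2 := up K hi'
  have hj2 := up K hj'
  have hx2 := up K hx'
  have hy2 := up K hy'
  have h00 := v0 K (r + 1)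
  have gi := tvs (r + 2) (fun i => (e i).succ.succ) _ _ hi2 h00
  have gj := tvs (r + 2) (fun i => (e i).succ.succ) _ _ hj2 h00
  have bx := tbw (r + 2) (fun i => (e i).succ.succ) _ _ hx2 gi.2
  have by' := tbw (r + 2) (fun i => (e i).succ.succ) _ _ hy2 gj.2
  refine Pool.Agent.Helper53_Chan.Test.congr (K.or _ _ _ (K.not _ _ gi.1) (K.or _ _ _
    (K.not _ _ gj.1) (beq_test K _ _ bx by'))) (fun ρ => ?_)
  constructor
  · rintro (h | h | h) h1 h2
    · exact absurd h1 h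
    · exact absurd h2 h
    · exact h
  · intro h
    by_cases h1 : (dat (At (fun i => (e i).succ.succ) ρ)).VS (i (fun i => ρ i.succ.succ))
      (ρ 0).length
    · by_cases h2 : (dat (At (fun i => (e i).succ.succ) ρ)).VS (j (fun i => ρ i.succ.succ))
        (ρ 0).length
      · exact Or.inr (Or.inr (h h1 h2))
      · exact Or.inr (Or.inl h2)
    · exact Or.inl h1

/-- TBD. -/
theorem tbd (tnm : TnmStmt) (tvs : TvsStmt) (tbw : TbwStmt) : TbdStmt := by
  intro r e i x hi hx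
  have g := (tnm r e).2.2.2.2.2.2.2 i hi
  refine K.and r _ _ (K.eq r _ _ g.2.2.2.1 (K.cst r 0)) (K.and r _ _
    (K.lt r _ _ g.2.2.2.2.1 (tnm r e).2.2.2.2.1) ?_)
  refine K.ex r (fun ρ => (dat (At e ρ)).m) (fun c ρ => c % (dat (At e ρ)).kp =
    (dat (At e ρ)).ca (i ρ) * (dat (At e ρ)).q + (dat (At e ρ)).cb (i ρ) ∧
    ∀ l < 3, bw (At e ρ) (x ρ) ((dat (At e ρ)).rk (i ρ) ((dat (At e ρ)).vr (3 * c + l))) ≠
      (dat (At e ρ)).sg (3 * c + l)) (tnm r e).2.2.2.1 ?_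
  have hi' := up K hi
  have hx' := up K hx
  have h0 := v0 K r
  have t' := tnm (r + 1) (fun i => (e i).succ)
  have g' := t'.2.2.2.2.2.2.2 _ hi'
  refine K.and _ _ _ (K.eq _ _ _ (K.mod _ _ _ h0 t'.2.2.2.2.2.1)
    (K.add _ _ _ (K.mul _ _ _ g'.2.2.2.2.1 t'.1) g'.2.2.2.2.2)) ?_
  refine K.all (r + 1) (fun _ => 3) (fun l ρ => bw (At (fun i => (e i).succ) ρ)
    (x (fun i => ρ i.succ)) ((dat (At (fun i => (e i).succ) ρ)).rk (i (fun i => ρ i.succ))
      ((dat (At (fun i => (e i).succ) ρ)).vr (3 * (ρ 0).length + l))) ≠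
      (dat (At (fun i => (e i).succ) ρ)).sg (3 * (ρ 0).length + l)) (K.cst _ 3) ?_
  have hi2 := up K hi'
  have hx2 := up K hx'
  have h1 := up K h0
  have h00 := v0 K (r + 1)
  have t2 := tnm (r + 2) (fun i => (e i).succ.succ)
  have hs : NumF (r + 2) (fun ρ => 3 * (ρ 1).length + (ρ 0).length) :=
    K.add _ _ _ (K.mul _ _ _ (K.cst _ 3) h1) h00
  have gs := t2.2.2.2.2.2.2.2 _ hs
  have gv := tvs (r + 2) (fun i => (e i).succ.succ) _ _ hi2 gs.1
  exact K.not _ _ (beq_test K _ _ (tbw (r + 2) (fun i => (e i).succ.succ) _ _ hx2 gv.2) gs.2.1)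

/-- MTX. -/
theorem mtx (tad : TadStmt) : MtxStmt := by
  have hcount : ∀ r (j : Fin r), NumF r (fun ρ => (ρ j).count Lt.bar) :=
    fun r j => K.ncount r j Lt.bar
  unfold MtxStmt
  refine K.loop 6 (fun w => (w 1).length) (fun i w => (List.range ((w 5).count Lt.bar)).flatMap
    fun x => (List.range (w 1).length).flatMap fun j =>
      (List.range ((w 5).count Lt.bar)).flatMap fun y =>
      @ite _ ((dat w).adj (bw w) i x j y) (Classical.propDecidable _) [Lt.pos] [Lt.neg])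
    (K.var 6 1) ?_
  refine K.loop 7 (fun w => (w 6).count Lt.bar) (fun x w =>
    (List.range (w 2).length).flatMap fun j =>
      (List.range ((w 6).count Lt.bar)).flatMap fun y =>
      @ite _ ((dat (fun i => w i.succ)).adj (bw (fun i => w i.succ)) (w 0).length x j y)
        (Classical.propDecidable _) [Lt.pos] [Lt.neg])
    (hcount 7 6) ?_
  refine K.loop 8 (fun w => (w 3).length) (fun j w =>
      (List.range ((w 7).count Lt.bar)).flatMap fun y =>
      @ite _ ((dat (fun i => w i.succ.succ)).adj (bw (fun i => w i.succ.succ))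
        (w 1).length (w 0).length j y) (Classical.propDecidable _) [Lt.pos] [Lt.neg])
    (K.var 8 3) ?_
  refine K.loop 9 (fun w => (w 8).count Lt.bar) (fun y w =>
      @ite _ ((dat (fun i => w i.succ.succ.succ)).adj (bw (fun i => w i.succ.succ.succ))
        (w 2).length (w 1).length (w 0).length y) (Classical.propDecidable _) [Lt.pos] [Lt.neg])
    (hcount 9 8) ?_
  classical
  exact Pool.Agent.Helper53_Chan.Test.ite (tad 10 (fun i => i.succ.succ.succ.succ) _ _ _ _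
    (K.var 10 3) (K.var 10 2) (K.var 10 1) (K.var 10 0)) (PGen.const [Lt.pos])
    (PGen.const [Lt.neg])

end

end Pool.Agent.C4F.H75
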